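import Pool.Agent.Run7.h836.LK.Algebra
import Pool.Agent.Run7.h836.LK.MGroup

set_option autoImplicit false

/-!
# Surgeries on the lifts of three circles in the cyclic branched covers of the figure eight knot

The figure eight knot is the pretzel knot `P(1, -3, 1)`; let `C 0`, `C 1`, `C 2` be circles around
the two strands of its three columns.  In the `n`-fold cyclic branched cover (the Fibonacci
manifold) each circle has `n` lifts, so there are `3 n` closed curves `C (j, i)`, `j < 3`, `i`
modulo `n`.  The theorem: for every `n ≥ 1`, fill in the `3 n` boundary tori of the complement of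
these curves with arbitrary, independent slopes
`β (j, i) * meridian - α (j, i) * longitude`, `β (j, i) ≥ 1`, such that the rational numbers
`α (j, i) / β (j, i)` are in `[0, 1]` for `j = 0`, in `(-∞, 0]` for `j = 1` and in `[0, ∞)` for
`j = 2`.  Then every homomorphism of the fundamental group to a left-orderable group is trivial;
in particular the group is not left-orderable.

Special cases: `α = 0` for `j = 0`, `β = 1` and `α` independent of `i`: cyclic branched covers of
the double twist knots with two positive parameters (Dabkowski, Przytycki, Togha); `α = β = 1` for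
`j = 0`, `β = 1` and `α` independent of `i`: the cyclic branched covers of the pretzel knots
`P(3, -(2q+1), 2b+1)` (the starting result `PretzelTwoParameters`, for `q = 1` the knots of Issa and
Turner).

Idea.  With `x i`, `v i`, `w i` (`i` modulo `n`) the longitudes, `x i * v i * w i = 1`, and
`e i`, `(r i)⁻¹`, `f i` the meridians, put `A i = e i * x i * v i ^ 2 * r i` and
`C i = w i * f i * (e i)⁻¹`; the relations give `A (i+1) = A i * w i` and
`C (i+1) = f i * (x i)⁻¹ * (e i)⁻¹`.  Let the group act by order automorphisms on a complete linear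
order; `e i` commutes with `x i` and moves points in the direction of `x i`, but not further than
`x i`.  If `A i y ≥ y` and `C i y ≥ y`, not both with equality, then there is a point `p ≤ y` with
`A (i+1) p ≥ p` and `C (i+1) p > C i y`: the point `y` itself or `p = x i ρ` with
`v i (r i ρ) = (e i)⁻¹ ρ`, by the intermediate value theorem.  This contradicts periodicity.  The
rest is as in `PretzelTwoParameters`.
-/

namespace Pool.Agent.Results.MP_9ae2f3_gt.SurgeriesOnFibonacciManifolds

open Pool.Agent.TH821.Hex Pool.Agent.Run7.H836.LK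

/-- A nontrivial group is left-orderable if it carries a strict total order that is invariant
under left multiplication. -/
def LeftOrderable (G : Type*) [Group G] : Prop :=
  Nontrivial G ∧ ∃ lt : G → G → Prop, IsStrictTotalOrder G lt ∧
    ∀ a b c : G, lt a b ↔ lt (c * a) (c * b)

/-- One crossing of a vertical twist region: if the two strands, both oriented downwards, have
meridians `(x, y)` (left, right) above the crossing, then they have meridians `(y, y⁻¹ x y)`
below it.  The inverse is the crossing of the other handedness. -/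
def crossing (G : Type*) [Group G] : Equiv.Perm (G × G) where
  toFun w := (w.2, w.2⁻¹ * w.1 * w.2)
  invFun w := (w.1 * w.2 * w.1⁻¹, w.1)
  left_inv w := by ext <;> simp [mul_assoc]
  right_inv w := by ext <;> simp [mul_assoc]

/-- The free group on the meridians of the knot and of the three circles. -/
abbrev F6 : Type := FreeGroup (Fin 3 ⊕ Fin 3)

/-- The meridian `a j` of the arc at the top of the diagram that joins the top right end of
column `j - 1` to the top left end of column `j`, oriented into column `j`. -/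
def arc (j : Fin 3) : F6 := FreeGroup.of (Sum.inl j)

/-- The meridian of the circle `C j` around the two strands of column `j`, at the part of the
circle in front of the strands; the circle is above the crossings of the column. -/
def circ (j : Fin 3) : F6 := FreeGroup.of (Sum.inr j)

/-- The longitude of the circle `C j`: the product of the downward meridians `a j` and
`(a (j+1))⁻¹` of the two strands that run through it. -/
def long (j : Fin 3) : F6 := arc j * (arc (j + 1))⁻¹

/-- The downward meridians of the two strands at the bottom of column `j`, which has `m j`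
crossings; at the top they are `a j` and `(a (j+1))⁻¹`, below the front part of the circle they
are the conjugates of these by the meridian of the circle. -/
def bottom (m : Fin 3 → ℤ) (j : Fin 3) : F6 × F6 :=
  (crossing F6 ^ m j)
    ((circ j)⁻¹ * arc j * circ j, (circ j)⁻¹ * (arc (j + 1))⁻¹ * circ j)

/-- The bottom right end of column `j` is joined to the bottom left end of column `j + 1`. -/
def relator (m : Fin 3 → ℤ) (j : Fin 3) : F6 :=
  (bottom m j).2 * (bottom m (j + 1)).1

/-- Meridian and longitude of the circle `C j` commute. -/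
def torusRelator (j : Fin 3) : F6 := long j * circ j * (long j)⁻¹ * (circ j)⁻¹

/-- The relators of the group of the link that consists of the pretzel knot with columns of
`m 0`, `m 1`, `m 2` crossings and the three circles. -/
def linkRelators (m : Fin 3 → ℤ) : Set F6 := Set.range (relator m) ∪ Set.range torusRelator

/-- The quotient of the link group by the `n`-th power of the meridian `a 0` of the knot. -/
def OrbifoldGroup (m : Fin 3 → ℤ) (n : ℕ) : Type :=
  PresentedGroup (linkRelators m ∪ {arc 0 ^ n})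

instance (m : Fin 3 → ℤ) (n : ℕ) : Group (OrbifoldGroup m n) :=
  inferInstanceAs (Group (PresentedGroup (linkRelators m ∪ {arc 0 ^ n})))

/-- The element of the orbifold group that is given by a word. -/
def mk (m : Fin 3 → ℤ) (n : ℕ) : F6 →* OrbifoldGroup m n :=
  PresentedGroup.mk (linkRelators m ∪ {arc 0 ^ n})

/-- The columns of the figure eight knot. -/
def columns : Fin 3 → ℤ := ![1, -3, 1]

section formulas
variable {G : Type*} [Group G]

theorem crossing_two (w : G × G) : (crossing G ^ (2 : ℤ)) w =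
    ((w.1 * w.2)⁻¹ * w.1 * (w.1 * w.2), (w.1 * w.2)⁻¹ * w.2 * (w.1 * w.2)) := by
  rw [show (2 : ℤ) = ((2 : ℕ) : ℤ) from rfl, zpow_natCast, pow_two]
  show crossing G (crossing G w) = _
  ext
  · show w.2⁻¹ * w.1 * w.2 = _
    simp only; group
  · show (w.2⁻¹ * w.1 * w.2)⁻¹ * w.2 * (w.2⁻¹ * w.1 * w.2) = _
    simp only; group

theorem crossing_even_nat (x y : G) (l : ℕ) : ((crossing G ^ (2 : ℤ)) ^ l) (x, y) =
    ((x * y) ^ (-(l : ℤ)) * x * (x * y) ^ (l : ℤ), (x * y) ^ (-(l : ℤ)) * y * (x * y) ^ (l : ℤ)) := by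
  induction l with
  | zero => simp
  | succ l ih =>
    rw [pow_succ', Equiv.Perm.mul_apply, ih, crossing_two]
    set P := x * y with hP
    have h1 : (P ^ (-(l : ℤ)) * x * P ^ (l : ℤ)) * (P ^ (-(l : ℤ)) * y * P ^ (l : ℤ)) = P := by
      calc _ = P ^ (-(l : ℤ)) * (x * y) * P ^ (l : ℤ) := by group
        _ = P := by rw [← hP]; group
    simp only [h1]
    push_cast
    ext
    · simp only; group
    · simp only; group

theorem crossing_even (x y : G) (l : ℤ) : (crossing G ^ (2 * l)) (x, y) =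
    ((x * y) ^ (-l) * x * (x * y) ^ l, (x * y) ^ (-l) * y * (x * y) ^ l) := by
  rw [zpow_mul]
  rcases Int.eq_nat_or_neg l with ⟨l, rfl | rfl⟩
  · rw [zpow_natCast]; exact crossing_even_nat x y l
  · rw [zpow_neg, zpow_natCast, Equiv.Perm.inv_eq_iff_eq, crossing_even_nat]
    set P := x * y with hP
    have h1 : (P ^ (-(-(l : ℤ))) * x * P ^ (-(l : ℤ))) * (P ^ (-(-(l : ℤ))) * y * P ^ (-(l : ℤ)))
        = P := by
      calc _ = P ^ ((l : ℤ)) * (x * y) * P ^ (-(l : ℤ)) := by group
        _ = P := by rw [← hP]; group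
    simp only [h1]
    ext
    · simp only; group
    · simp only; group

theorem crossing_odd (x y : G) (l : ℤ) : (crossing G ^ (2 * l + 1)) (x, y) =
    ((x * y) ^ (-l) * y * (x * y) ^ l, (x * y) ^ (-l - 1) * x * (x * y) ^ (l + 1)) := by
  rw [add_comm, zpow_one_add, Equiv.Perm.mul_apply, crossing_even]
  set P := x * y with hP
  have hy : y = x⁻¹ * P := by rw [hP]; group
  show ((P ^ (-l) * y * P ^ l), (P ^ (-l) * y * P ^ l)⁻¹ * (P ^ (-l) * x * P ^ l) *
    (P ^ (-l) * y * P ^ l)) = _
  ext
  · rfl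
  · simp only
    calc (P ^ (-l) * y * P ^ l)⁻¹ * (P ^ (-l) * x * P ^ l) * (P ^ (-l) * y * P ^ l)
        = P ^ (-l) * (y⁻¹ * (x * y)) * P ^ l := by group
      _ = P ^ (-l) * (y⁻¹ * P) * P ^ l := by rw [← hP]
      _ = P ^ (-l - 1) * (P * y⁻¹) * P ^ (l + 1) := by group
      _ = P ^ (-l - 1) * x * P ^ (l + 1) := by rw [hP]; group

end formulas

theorem bottom_odd (m : Fin 3 → ℤ) (j : Fin 3) (l : ℤ) (h : m j = 2 * l + 1) :
    bottom m j = ((((circ j)⁻¹ * arc j * circ j) * ((circ j)⁻¹ * (arc (j + 1))⁻¹ * circ j)) ^ (-l) *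
        ((circ j)⁻¹ * (arc (j + 1))⁻¹ * circ j) *
        (((circ j)⁻¹ * arc j * circ j) * ((circ j)⁻¹ * (arc (j + 1))⁻¹ * circ j)) ^ l,
      (((circ j)⁻¹ * arc j * circ j) * ((circ j)⁻¹ * (arc (j + 1))⁻¹ * circ j)) ^ (-l - 1) *
        ((circ j)⁻¹ * arc j * circ j) *
        (((circ j)⁻¹ * arc j * circ j) * ((circ j)⁻¹ * (arc (j + 1))⁻¹ * circ j)) ^ (l + 1)) := by
  unfold bottom
  rw [h, crossing_odd]

theorem torus_comm {G : Type*} [Group G] (μ : F6 →* G) (j : Fin 3)
    (h : μ (torusRelator j) = 1) : μ (long j) * μ (circ j) = μ (circ j) * μ (long j) := by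
  unfold torusRelator at h
  rw [map_mul, map_mul, map_mul, map_inv, map_inv, mul_inv_eq_one, mul_inv_eq_iff_eq_mul] at h
  exact h

theorem rel_formula {G : Type*} [Group G] (μ : F6 →* G) (m : Fin 3 → ℤ)
    (j : Fin 3) (l l' : ℤ) (h : m j = 2 * l + 1) (h' : m (j + 1) = 2 * l' + 1)
    (hr : μ (relator m j) = 1) (hc : μ (torusRelator j) = 1) (hc' : μ (torusRelator (j + 1)) = 1) :
    μ (arc j) * (μ (circ j) * (μ (arc j) * (μ (arc (j + 1)))⁻¹) ^ l *
        (μ (arc j) * (μ (arc (j + 1)))⁻¹) *
        (μ (circ (j + 1)) * (μ (arc (j + 1)) * (μ (arc (j + 1 + 1)))⁻¹) ^ l')⁻¹) *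
        (μ (arc (j + 1 + 1)))⁻¹ =
      μ (circ j) * (μ (arc j) * (μ (arc (j + 1)))⁻¹) ^ l *
        (μ (arc j) * (μ (arc (j + 1)))⁻¹) *
        (μ (circ (j + 1)) * (μ (arc (j + 1)) * (μ (arc (j + 1 + 1)))⁻¹) ^ l')⁻¹ := by
  have key : ∀ i : Fin 3, μ (torusRelator i) = 1 → μ (arc i) * (μ (arc (i + 1)))⁻¹ * μ (circ i) =
      μ (circ i) * (μ (arc i) * (μ (arc (i + 1)))⁻¹) := by
    intro i hi
    have := torus_comm μ i hi
    unfold long at this
    rwa [map_mul, map_inv] at this
  apply Pool.Agent.Run7.H836.LK.one_rel l l' (key j hc) (key (j + 1) hc')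
  unfold relator at hr
  rw [bottom_odd m j l h, bottom_odd m (j + 1) l' h'] at hr
  simpa only [map_mul, map_zpow, map_inv] using hr

/-- The relators of the orbifold group have degree `0`. -/
theorem degree_rel (m : Fin 3 → ℤ) (hm : ∀ j, Odd (m j)) (n : ℕ) :
    ∀ w ∈ linkRelators m ∪ {arc 0 ^ n},
      FreeGroup.lift (Sum.elim (fun _ : Fin 3 => (Multiplicative.ofAdd 1 : Multiplicative (ZMod n)))
        (fun _ : Fin 3 => 1)) w = 1 := by
  rintro w ((⟨j, rfl⟩ | ⟨j, rfl⟩) | rfl)
  · obtain ⟨l, hl⟩ := hm j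
    obtain ⟨l', hl'⟩ := hm (j + 1)
    unfold relator
    rw [bottom_odd m j l hl, bottom_odd m (j + 1) l' hl']
    simp [arc, circ]
  · simp [torusRelator, long, arc, circ]
  · simp only [arc, map_pow, FreeGroup.lift_apply_of, Sum.elim_inl]
    rw [← ofAdd_nsmul]
    simp

/-- The homomorphism of the orbifold group to `Z/n` that sends the meridians `a j` of the knot
to `1` and the meridians of the circles to `0`. -/
def degree (m : Fin 3 → ℤ) (hm : ∀ j, Odd (m j)) (n : ℕ) :
    OrbifoldGroup m n →* Multiplicative (ZMod n) :=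
  PresentedGroup.toGroup (degree_rel m hm n)

/-- The fundamental group of the complement of the `3 n` lifts of the circles in the `n`-fold
cyclic branched cover of the knot: the kernel of the degree. -/
def CoverGroup (m : Fin 3 → ℤ) (hm : ∀ j, Odd (m j)) (n : ℕ) : Type :=
  (degree m hm n).ker

instance (m : Fin 3 → ℤ) (hm : ∀ j, Odd (m j)) (n : ℕ) : Group (CoverGroup m hm n) :=
  inferInstanceAs (Group (degree m hm n).ker)

theorem conj_mem_ker (m : Fin 3 → ℤ) (hm : ∀ j, Odd (m j)) (n : ℕ) (w : OrbifoldGroup m n)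
    (hw : degree m hm n w = 1) (i : ZMod n) :
    mk m n (arc 0) ^ i.val * w * (mk m n (arc 0) ^ i.val)⁻¹ ∈ (degree m hm n).ker := by
  show degree m hm n _ = 1
  rw [map_mul, map_mul, hw, map_inv, mul_one, mul_inv_cancel]

/-- The element of degree `0` given by a word `w`, conjugated by the `i`-th power of the
meridian `a 0`. -/
def lift (m : Fin 3 → ℤ) (hm : ∀ j, Odd (m j)) (n : ℕ) (w : F6)
    (hw : degree m hm n (mk m n w) = 1) (i : ZMod n) : CoverGroup m hm n :=
  Subtype.mk (mk m n (arc 0) ^ i.val * mk m n w * (mk m n (arc 0) ^ i.val)⁻¹)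
    (conj_mem_ker m hm n (mk m n w) hw i)

theorem degree_circ (m : Fin 3 → ℤ) (hm : ∀ j, Odd (m j)) (n : ℕ) (j : Fin 3) :
    degree m hm n (mk m n (circ j)) = 1 :=
  (PresentedGroup.toGroup.of (degree_rel m hm n)).trans rfl

theorem degree_arc (m : Fin 3 → ℤ) (hm : ∀ j, Odd (m j)) (n : ℕ) (j : Fin 3) :
    degree m hm n (mk m n (arc j)) = Multiplicative.ofAdd 1 :=
  (PresentedGroup.toGroup.of (degree_rel m hm n)).trans rfl

theorem degree_long (m : Fin 3 → ℤ) (hm : ∀ j, Odd (m j)) (n : ℕ) (j : Fin 3) :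
    degree m hm n (mk m n (long j)) = 1 := by
  unfold long
  rw [map_mul, map_mul, map_inv, map_inv, degree_arc, degree_arc, mul_inv_cancel]

/-- The meridian of the `i`-th lift of the circle `C j`. -/
def meridian (m : Fin 3 → ℤ) (hm : ∀ j, Odd (m j)) (n : ℕ) (j : Fin 3) (i : ZMod n) :
    CoverGroup m hm n :=
  lift m hm n (circ j) (degree_circ m hm n j) i

/-- The lift of the longitude of `C j` on the boundary of the `i`-th lift of `C j`. -/
def longitude (m : Fin 3 → ℤ) (hm : ∀ j, Odd (m j)) (n : ℕ) (j : Fin 3) (i : ZMod n) :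
    CoverGroup m hm n :=
  lift m hm n (long j) (degree_long m hm n j) i

/-- The slopes `β j i * meridian - α j i * longitude` on the boundary of the `i`-th lift
of `C j`. -/
def slopes (m : Fin 3 → ℤ) (hm : ∀ j, Odd (m j)) (n : ℕ) (α : Fin 3 → ZMod n → ℤ)
    (β : Fin 3 → ZMod n → ℕ) :
    Set (CoverGroup m hm n) :=
  Set.range fun t : Fin 3 × ZMod n =>
    meridian m hm n t.1 t.2 ^ β t.1 t.2 * (longitude m hm n t.1 t.2 ^ α t.1 t.2)⁻¹

/-- The fundamental group of the closed manifold: the lifts of the circles are filled with these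
slopes. -/
def FilledGroup (m : Fin 3 → ℤ) (hm : ∀ j, Odd (m j)) (n : ℕ) (α : Fin 3 → ZMod n → ℤ)
    (β : Fin 3 → ZMod n → ℕ) :
    Type :=
  CoverGroup m hm n ⧸ Subgroup.normalClosure (slopes m hm n α β)

instance (m : Fin 3 → ℤ) (hm : ∀ j, Odd (m j)) (n : ℕ) (α : Fin 3 → ZMod n → ℤ)
    (β : Fin 3 → ZMod n → ℕ) :
    Group (FilledGroup m hm n α β) :=
  inferInstanceAs (Group (CoverGroup m hm n ⧸ Subgroup.normalClosure (slopes m hm n α β)))

theorem eq_top_of_mem (m : Fin 3 → ℤ) (n : ℕ) (K : Subgroup (OrbifoldGroup m n))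
    (h : ∀ j, mk m n (arc j) ∈ K) (h' : ∀ j, mk m n (circ j) ∈ K) : K = ⊤ := by
  have h1 : K.comap (mk m n) = ⊤ := by
    rw [eq_top_iff, ← FreeGroup.closure_range_of, Subgroup.closure_le]
    rintro _ ⟨j | j, rfl⟩
    · exact h j
    · exact h' j
  rw [eq_top_iff]
  intro x _
  obtain ⟨w, rfl⟩ := PresentedGroup.mk_surjective _ x
  have h2 : w ∈ K.comap (mk m n) := by rw [h1]; trivial
  exact h2

/-- The map to the fundamental group of the closed manifold. -/
def fill (m : Fin 3 → ℤ) (hm : ∀ j, Odd (m j)) (n : ℕ) (α : Fin 3 → ZMod n → ℤ)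
    (β : Fin 3 → ZMod n → ℕ) :
    CoverGroup m hm n →* FilledGroup m hm n α β :=
  QuotientGroup.mk' (Subgroup.normalClosure (slopes m hm n α β))

theorem fill_surjective (m : Fin 3 → ℤ) (hm : ∀ j, Odd (m j)) (n : ℕ)
    (α : Fin 3 → ZMod n → ℤ)
    (β : Fin 3 → ZMod n → ℕ) : Function.Surjective (fill m hm n α β) :=
  QuotientGroup.mk_surjective

theorem fill_slope (m : Fin 3 → ℤ) (hm : ∀ j, Odd (m j)) (n : ℕ) (α : Fin 3 → ZMod n → ℤ)
    (β : Fin 3 → ZMod n → ℕ)
    (j : Fin 3) (i : ZMod n) : fill m hm n α β (meridian m hm n j i) ^ β j i =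
      fill m hm n α β (longitude m hm n j i) ^ α j i := by
  have h2 : meridian m hm n j i ^ β j i * (longitude m hm n j i ^ α j i)⁻¹ ∈
      slopes m hm n α β := ⟨(j, i), rfl⟩
  have h3 : fill m hm n α β (meridian m hm n j i ^ β j i * (longitude m hm n j i ^ α j i)⁻¹) = 1 :=
    (QuotientGroup.eq_one_iff _).mpr (Subgroup.subset_normalClosure h2)
  rw [map_mul, map_inv, map_pow, map_zpow, mul_inv_eq_one] at h3
  exact h3

theorem columns_odd : ∀ j, Odd (columns j) := by
  intro j
  fin_cases j
  · exact ⟨0, rfl⟩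
  · exact ⟨-2, rfl⟩
  · exact ⟨0, rfl⟩

/-- `G` has no nontrivial homomorphism to a left-orderable group; in particular it is not
left-orderable. -/
theorem not_lo {G : Type} [Group G]
    (h : ∀ (H : Type) [Group H], LeftOrderable H → ∀ f : G →* H, ∀ g, f g = 1) :
    ¬ LeftOrderable G := by
  intro hG
  obtain ⟨a, b, hab⟩ := hG.1
  have key := h G hG (MonoidHom.id _)
  exact hab ((key a).trans (key b).symm)

theorem lo_order {H : Type*} [Group H] (hH : LeftOrderable H) :
    ∃ _ : LinearOrder H, ∀ a b c : H, a ≤ b ↔ c * a ≤ c * b := by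
  classical
  obtain ⟨_, lt, hlt, hinv⟩ := hH
  refine ⟨linearOrderOfSTO lt, ?_⟩
  intro a b c
  show (a = b ∨ lt a b) ↔ (c * a = c * b ∨ lt (c * a) (c * b))
  rw [mul_right_inj, ← hinv]

/-- A left-ordered group has no torsion. -/
theorem eq_one_of_pow {H : Type*} [Group H] [LinearOrder H]
    (hinv : ∀ a b c : H, a ≤ b ↔ c * a ≤ c * b) {x : H} {b : ℕ} (hb : 0 < b) (hx : x ^ b = 1) :
    x = 1 := by
  have up : ∀ (y : H), 1 ≤ y → ∀ k : ℕ, y ≤ y ^ (k + 1) := by
    intro y hy k
    induction k with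
    | zero => simp
    | succ k ih =>
      have h1 := (hinv 1 y (y ^ (k + 1))).mp hy
      rw [mul_one, ← pow_succ] at h1
      exact ih.trans h1
  obtain ⟨k, rfl⟩ := Nat.exists_eq_add_of_le' hb
  rcases le_total 1 x with h | h
  · exact le_antisymm ((up x h k).trans hx.le) h
  · have h1 : 1 ≤ x⁻¹ := by
      have := (hinv x 1 x⁻¹).mp h
      rwa [inv_mul_cancel, mul_one] at this
    have h2 := up x⁻¹ h1 k
    have hx' : x⁻¹ ^ (k + 1) = 1 := by rw [inv_pow, hx, inv_one]
    rw [hx'] at h2
    exact inv_eq_one.mp (le_antisymm h2 h1)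

theorem filled_trivial {n : ℕ} (hn : 0 < n) (α : Fin 3 → ZMod n → ℤ) (β : Fin 3 → ZMod n → ℕ)
    (hβ : ∀ j i, 0 < β j i) (h0 : ∀ i, 0 ≤ α 0 i ∧ α 0 i ≤ β 0 i) (h1 : ∀ i, α 1 i ≤ 0)
    (h2 : ∀ i, 0 ≤ α 2 i) {H : Type*} [Group H] (hH : LeftOrderable H)
    (f : FilledGroup columns columns_odd n α β →* H)
    (g : FilledGroup columns columns_odd n α β) : f g = 1 := by
  obtain ⟨_, hinv⟩ := lo_order hH
  obtain ⟨g, rfl⟩ := fill_surjective columns columns_odd n α β g
  set μ := mk columns n with hμ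
  set d := degree columns columns_odd n with hd
  set φ : d.ker →* H := f.comp (fill columns columns_odd n α β) with hφ
  show φ g = 1
  have hs : μ (arc 0) ^ n = 1 := by
    rw [← map_pow]; exact PresentedGroup.one_of_mem (Or.inr rfl)
  have ht : ∀ j, μ (torusRelator j) = 1 :=
    fun j => PresentedGroup.one_of_mem (Or.inl (Or.inr ⟨j, rfl⟩))
  have hr : ∀ j, μ (relator columns j) = 1 :=
    fun j => PresentedGroup.one_of_mem (Or.inl (Or.inl ⟨j, rfl⟩))
  have r0 := rel_formula μ columns 0 0 (-2) rfl rfl (hr 0) (ht 0) (ht 1)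
  have r1 := rel_formula μ columns 1 (-2) 0 rfl rfl (hr 1) (ht 1) (ht 2)
  simp only [zpow_zero, mul_one] at r0 r1
  have A := relA_of r0
  have B := relB_of r1
  -- the lifts of longitudes and meridians
  set P : Fin 3 → d.ker := fun j => ⟨μ (long j), degree_long columns columns_odd n j⟩ with hP
  set C : Fin 3 → d.ker := fun j => ⟨μ (circ j), degree_circ columns columns_odd n j⟩ with hC
  have hP2 : P 2 = (P 0 * P 1)⁻¹ := by
    apply Subtype.ext
    show μ (arc 2 * (arc 0)⁻¹) = (μ (arc 0 * (arc 1)⁻¹) * μ (arc 1 * (arc 2)⁻¹))⁻¹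
    rw [← map_mul, ← map_inv]
    congr 1
    group
  have comm : ∀ j, P j * C j = C j * P j := by
    intro j
    apply Subtype.ext
    exact torus_comm μ j (ht j)
  have slope : ∀ j i, φ (ck d (μ (arc 0)) i (C j)) ^ β j i =
      φ (ck d (μ (arc 0)) i (P j)) ^ α j i := by
    intro j i
    have h1 := congrArg f (fill_slope columns columns_odd n α β j i)
    rw [map_pow, map_zpow] at h1
    exact h1
  have comm' : ∀ j i, φ (ck d (μ (arc 0)) i (P j)) * φ (ck d (μ (arc 0)) i (C j)) =
      φ (ck d (μ (arc 0)) i (C j)) * φ (ck d (μ (arc 0)) i (P j)) := by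
    intro j i
    rw [← map_mul, ← map_mul, ← map_mul, ← map_mul, comm]
  have fol : ∀ j i, 0 ≤ α j i → Fol (φ (ck d (μ (arc 0)) i (P j))) (φ (ck d (μ (arc 0)) i (C j)))
      (α j i).toNat (β j i) := by
    intro j i hα
    refine ⟨comm' j i, hβ j i, ?_⟩
    rw [slope, ← zpow_natCast, Int.toNat_of_nonneg hα]
  have fol1 : ∀ i, Fol (φ (ck d (μ (arc 0)) i (P 1))) (φ (ck d (μ (arc 0)) i (C 1)))⁻¹
      (-(α 1 i)).toNat (β 1 i) := by
    intro i
    refine ⟨?_, hβ 1 i, ?_⟩
    · exact ((show Commute _ _ from comm' 1 i).inv_right).eq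
    · rw [inv_pow, slope, ← zpow_natCast, Int.toNat_of_nonneg (by have := h1 i; omega), zpow_neg]
  have prod : ∀ i, φ (ck d (μ (arc 0)) i (P 0)) * φ (ck d (μ (arc 0)) i (P 1)) *
      φ (ck d (μ (arc 0)) i (P 2)) = 1 := by
    intro i
    rw [← map_mul, ← map_mul, ← map_mul, ← map_mul, hP2, mul_inv_cancel, map_one, map_one]
  have R : MRel (fun i => φ (ck d (μ (arc 0)) i (P 0))) (fun i => φ (ck d (μ (arc 0)) i (P 1)))
      (fun i => φ (ck d (μ (arc 0)) i (P 2))) (fun i => φ (ck d (μ (arc 0)) i (C 0)))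
      (fun i => φ (ck d (μ (arc 0)) i (C 2))) (fun i => (φ (ck d (μ (arc 0)) i (C 1)))⁻¹)
      ![fun i => (α 0 i).toNat, fun i => (-(α 1 i)).toNat, fun i => (α 2 i).toNat] β := by
    refine ⟨prod, fun i => fol 0 i (h0 i).1, ?_, fol1, fun i => fol 2 i (h2 i), ?_, ?_⟩
    · intro i
      show (α 0 i).toNat ≤ β 0 i
      have := h0 i
      omega
    · intro i
      have := ck_shift hn hs d φ i (C 0 * P 0 * P 1 * P 1 * (C 1)⁻¹)
        (C 0 * P 0 * P 1 * P 1 * (C 1)⁻¹ * P 2) (by
          rw [hP2]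
          exact algA A)
      simpa only [map_mul, map_inv] using this
    · intro i
      have := ck_shift hn hs d φ i ((P 1 * (C 1)⁻¹)⁻¹ * (C 2)⁻¹)
        (P 0 * (P 1 * (C 1)⁻¹)⁻¹ * (C 2)⁻¹) (algB B)
      simpa only [map_mul, map_inv] using this
  have triv := fun i => mrel_trivial hinv hn R i
  have tP : ∀ j i, φ (ck d (μ (arc 0)) i (P j)) = 1 := by
    intro j i
    have h0 : φ (ck d (μ (arc 0)) i (P 0)) = 1 := (triv i).1
    have h1 : φ (ck d (μ (arc 0)) i (P 1)) = 1 := (triv i).2
    have h2 := prod i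
    rw [h0, h1, one_mul, one_mul] at h2
    fin_cases j
    · exact h0
    · exact h1
    · exact h2
  have tC : ∀ j i, φ (ck d (μ (arc 0)) i (C j)) = 1 := by
    intro j i
    apply eq_one_of_pow hinv (hβ j i)
    rw [slope, tP, one_zpow]
  refine ker_trivial hn (s := μ (arc 0)) (y := fun t : Fin 3 ⊕ Fin 3 =>
    Sum.elim (fun j => μ (long j)) (fun j => μ (circ j)) t) hs ?_ d
    (degree_arc columns columns_odd n 0) ?_ φ ?_ g
  · intro K h1 h2
    have a0 : μ (arc 0) ∈ K := h1
    have a1 : μ (arc 1) ∈ K := by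
      have h3 : μ (arc 1) = (μ (long 0))⁻¹ * μ (arc 0) := by
        rw [← map_inv, ← map_mul]; congr 1; show arc 1 = (arc 0 * (arc 1)⁻¹)⁻¹ * arc 0; group
      rw [h3]; exact mul_mem (inv_mem (h2 (Sum.inl 0))) a0
    have a2 : μ (arc 2) ∈ K := by
      have h3 : μ (arc 2) = (μ (long 1))⁻¹ * μ (arc 1) := by
        rw [← map_inv, ← map_mul]; congr 1; show arc 2 = (arc 1 * (arc 2)⁻¹)⁻¹ * arc 1; group
      rw [h3]; exact mul_mem (inv_mem (h2 (Sum.inl 1))) a1
    apply eq_top_of_mem columns n K
    · intro j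
      fin_cases j
      · exact a0
      · exact a1
      · exact a2
    · intro j
      exact h2 (Sum.inr j)
  · rintro (j | j)
    · exact degree_long columns columns_odd n j
    · exact degree_circ columns columns_odd n j
  · rintro (j | j) i
    · exact tP j i
    · exact tC j i

theorem result (n : ℕ) (hn : 0 < n) (α : Fin 3 → ZMod n → ℤ) (β : Fin 3 → ZMod n → ℕ)
    (hβ : ∀ j i, 0 < β j i) (h0 : ∀ i, 0 ≤ α 0 i ∧ α 0 i ≤ β 0 i) (h1 : ∀ i, α 1 i ≤ 0)
    (h2 : ∀ i, 0 ≤ α 2 i) :
    ¬ LeftOrderable (FilledGroup columns columns_odd n α β) ∧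
    ∀ (H : Type) [Group H], LeftOrderable H →
      ∀ f : FilledGroup columns columns_odd n α β →* H, ∀ g, f g = 1 := by
  have h : ∀ (H : Type) [Group H], LeftOrderable H →
      ∀ f : FilledGroup columns columns_odd n α β →* H, ∀ g, f g = 1 :=
    fun H _ hH f g => filled_trivial hn α β hβ h0 h1 h2 hH f g
  exact ⟨not_lo h, h⟩

end Pool.Agent.Results.MP_9ae2f3_gt.SurgeriesOnFibonacciManifolds
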