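import Pool.Agent.Run7.h161.KN.Slots

set_option autoImplicit false
set_option linter.unusedSimpArgs false

/-!
# Symmetric unions of two-bridge links, with rational or alternating tangles on the axis

## The links

Let `D` be the alternating diagram whose white graph is a fan: the white regions are the hub `A`
and `v₀, …, vₙ`, there is one crossing between `vᵢ` and `vᵢ₊₁` (`0 ≤ i < n`), and the numbers of
parallel crossings between `A` and `v₀, v₁, …, vₙ₋₁, vₙ` are `a₀ + 1, a₁, …, aₙ₋₁, aₙ + 1`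
(`a₀ + 2` if `n = 0`), where `a₀, …, aₙ ≥ 0` are arbitrary.  This is the standard diagram of a
two-bridge link, and every two-bridge link that is not the unknot or the unlink has such a
diagram.  Around `A` there are, in this order, the black regions `M` (which touches all `vᵢ`),
`F₀` (after the first crossing), bigons, `F₁` (which touches `A, v₀, v₁`), bigons, `F₂`
(which touches `A, v₁, v₂`), …, `Fₙ`, bigons, `Fₙ₊₁` (before the last crossing), `M`.

Draw `D` to the left of an axis (a circle on the sphere of the diagram), its mirror image `D'` to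
the right, and take the connected sum of `D` and `D'` across the axis at the edge of the diagram
between `A` and `M`.  The axis now runs through `A` and through `M`.  The edges of `D` between
`v₀` and `M`, `vₙ` and `M`, `A` and `F₀`, `A` and `Fₙ₊₁` face their mirror images.  Replace
the two facing edges

* at `v₀` by a tangle `T₁`, at `vₙ` by a tangle `T₂` (both cut `M`: into `M₀`, which touches the
  first crossing, `M₁`, which touches the crossings between `vᵢ` and `vᵢ₊₁`, and `M₂`, which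
  touches the last crossing),
* at `F₀` by a tangle `T₃`, at `Fₙ₊₁` by a tangle `T₄` (both cut `A`: into `A₀`, which touches
  the first crossing, `A₁`, which touches all others, and `A₂`, which touches the last crossing).

Each of the four tangles (`Slot`) is

* an arbitrary rational tangle except the one of two arcs that cross the axis and join the mirror
  images (for which the double branched cover has infinite first homology), or
* an arbitrary (connected, reduced) alternating tangle, of either sign (`Tangle`, with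
  `flip = false`, or the reflection of such a tangle, with `flip = true`).  Nothing is assumed
  about its sign, about its size, or about the position with respect to the signs of the crossings
  of `D` and `D'`, which are opposite to each other; so the diagram is in general far from being
  alternating.

If the tangles consist of crossings on the axis, this is a symmetric union (Kinoshita–Terasaka,
Lamm) of `D` and `D'` with four twist regions.  For example, Kanenobu's knots are the case of the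
figure-eight knot `D` (`n = 1`, `a₀ = 1`, `a₁ = 0`) and two twist regions `T₁`, `T₂`.

## The group

The fundamental group of the double branched cover is generated by the regions, where `A₀ = 1`,
`M₀ = 1`; a crossing with the corners `w₁, b₁, w₂, b₂` (counterclockwise, `w` white, `b` black)
has the relation `b₂⁻¹ b₁ = w₁⁻¹ w₂` if it is one of `D` and `b₁⁻¹ b₂ = w₁⁻¹ w₂` if it is one of `D'`.
So `m` parallel crossings between the white regions `x`, `y` and the black regions `e` (before),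
`f` (after them, in the order above) have the relation `e⁻¹ f = (x⁻¹ y) ^ m` on both sides (the
bigons are eliminated).  A rational tangle between the mirror images `x`, `x'` and the regions `e`,
`e'` of the other colour lifts to a solid torus; with its core `g` this gives the relations
`x⁻¹ x' = g ^ s`, `e⁻¹ e' = g ^ r` with coprime `r`, `s`, and `s > 0`.  `r` crossings on the axis are
the case `s = 1`, and `s = 1`, `r = 0` is the trivial tangle.  An alternating tangle contributes its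
regions, of which the four at its boundary are identified with `x, x', e, e'`, and the relations
`b₂⁻¹ b₁ = w₁⁻¹ w₂` of its crossings (`Slot.white`, `Slot.black`; for `flip = true` the corners are
those before the reflection, and `e`, `e'` respectively `x`, `x'` are exchanged).  The relation
`torus₄` says that the fundamental group of the torus over the sphere around `T₄` is commutative; it
is a consequence of the others.  This is the group `Grp n a T₁ T₂ T₃ T₄` below.  If all tangles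
are rational its abelianization has the order `det(D) ^ 2 * s₁ * s₂ * s₃ * s₄`.

## The theorem

The group is not left-orderable, and all its homomorphisms to left-orderable groups are trivial.

Idea.  Let `b₀, …, bₙ` be the numbers of crossings between `A` and `v₀, …, vₙ`.  Put
`N₀ = M₁⁻¹ A₁`, `Eᵢ = A₁⁻¹ vᵢ`, `Nᵢ = M₁⁻¹ Fᵢ` (`0 < i ≤ n`), `Nₙ₊₁ = M₁⁻¹ Fₙ₊₁ Eₙ`.  The relations
at the crossings are a Euclidean algorithm: `Nᵢ₊₁ = Nᵢ Eᵢ ^ bᵢ`, `Eᵢ₊₁ = Eᵢ Nᵢ₊₁`, and similarly
`Nᵢ'`, `Eᵢ'`; moreover `N₀ = N₀'`, `Nₙ₊₁ = Nₙ₊₁'`.  Let the group act on a complete linear order.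
By the maximum principle for alternating tangles (in the starting files) the points where `E₀`
and `E₀'` agree are fixed points of `N₀`, and the points where `Eₙ` and `Eₙ'` agree are fixed
points of `Nₙ₊₁`.  If `E₀⁻¹ E₀'` moves all points up then `Nₙ₊₁ < Nₙ₊₁'`, a contradiction.  Let `x` be
a fixed point of `E₀⁻¹ E₀'`, hence of `N₀`, and suppose that `x < E₀ x`.  Then `x < Nₙ₊₁ x`.  Let
`J` be the interval of the points `t ≤ x` such that `Nₙ₊₁` moves all points of `[t, x]` up.  It is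
mapped into itself by `Nₙ₊₁⁻¹`, and `v = Eₙ⁻¹ Eₙ'` has no fixed point in it, so that, say, it moves
all points of `J` up.  If `t ∈ J` and `Eᵢ` moves `t` up then `Eᵢ t < Eᵢ' t`: this is clear for
`i = n`, and for `i < n` one writes `Eᵢ t = Eᵢ₊₁ Nᵢ₊₁⁻¹ t`, `Nⱼ⁻¹ t = Eⱼ ^ bⱼ Nⱼ₊₁⁻¹ t` for `j > i`,
and checks that all points that occur are in `J` and are moved up by the `Eⱼ` that is applied to
them (`Chain.moves`).  Hence `E₀ x < E₀' x`, a contradiction.  So `x` is fixed by `E₀`, and then by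
the group.
-/

namespace Pool.Agent.Results.MP_9ae2f3_gt.TwoBridgeSymmetricUnions

open Pool.Agent.Y479.LS Run7.h161.KN

/-- A nontrivial group is left-orderable if it carries a strict total order that is invariant
under left multiplication. -/
def LeftOrderable (G : Type*) [Group G] : Prop :=
  Nontrivial G ∧ ∃ lt : G → G → Prop, IsStrictTotalOrder G lt ∧
    ∀ a b c : G, lt a b ↔ lt (c * a) (c * b)

/-- The generators: the white regions `A₀, A₁, A₂` and `vᵢ`, `vᵢ'`, the black regions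
`M₀, M₁, M₂` and `Fᵢ`, `Fᵢ'` (`v false i` and `F false i` are regions of `D`, `v true i` and
`F true i` their mirror images), and the generators of the tangles `T₁, T₂, T₃, T₄`. -/
inductive Gen (n : ℕ) (T₁ T₂ T₃ T₄ : Slot)
  | A₀ | A₁ | A₂ | M₀ | M₁ | M₂
  | v (c : Bool) (i : Fin (n + 1))
  | F (c : Bool) (i : Fin (n + 2))
  | t₁ (g : T₁.Gen) | t₂ (g : T₂.Gen) | t₃ (g : T₃.Gen) | t₄ (g : T₄.Gen)

open Gen

/-- The generator as an element of the free group. -/
abbrev ι {n : ℕ} {T₁ T₂ T₃ T₄ : Slot} (x : Gen n T₁ T₂ T₃ T₄) :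
    FreeGroup (Gen n T₁ T₂ T₃ T₄) := FreeGroup.of x

/-- The relators. -/
inductive Relator (n : ℕ) (a : ℕ → ℕ) (T₁ T₂ T₃ T₄ : Slot) :
    FreeGroup (Gen n T₁ T₂ T₃ T₄) → Prop
  /-- `A₀ = 1` -/
  | base_white : Relator n a T₁ T₂ T₃ T₄ (ι A₀)
  /-- `M₀ = 1` -/
  | base_black : Relator n a T₁ T₂ T₃ T₄ (ι M₀)
  /-- the first crossing: `M₀⁻¹ F₀ = A₀⁻¹ v₀` -/
  | first (c : Bool) : Relator n a T₁ T₂ T₃ T₄
      ((ι M₀)⁻¹ * ι (F c 0) * ((ι A₀)⁻¹ * ι (v c 0))⁻¹)
  /-- the `aᵢ` crossings between `A₁` and `vᵢ`: `Fᵢ⁻¹ Fᵢ₊₁ = (A₁⁻¹ vᵢ) ^ aᵢ` -/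
  | spokes (c : Bool) (i : Fin (n + 1)) : Relator n a T₁ T₂ T₃ T₄
      ((ι (F c i.castSucc))⁻¹ * ι (F c i.succ) * (((ι A₁)⁻¹ * ι (v c i)) ^ a i)⁻¹)
  /-- the crossing between `vᵢ` and `vᵢ₊₁`: `M₁⁻¹ Fᵢ₊₁ = vᵢ⁻¹ vᵢ₊₁` -/
  | rim (c : Bool) (i : Fin n) : Relator n a T₁ T₂ T₃ T₄
      ((ι M₁)⁻¹ * ι (F c i.succ.castSucc) * ((ι (v c i.castSucc))⁻¹ * ι (v c i.succ))⁻¹)
  /-- the last crossing: `Fₙ₊₁⁻¹ M₂ = A₂⁻¹ vₙ` -/
  | last (c : Bool) : Relator n a T₁ T₂ T₃ T₄
      ((ι (F c (Fin.last (n + 1))))⁻¹ * ι M₂ * ((ι A₂)⁻¹ * ι (v c (Fin.last n)))⁻¹)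
  /-- the relators of the tangle `T₁` -/
  | tangle₁ {w : FreeGroup (Gen n T₁ T₂ T₃ T₄)}
      (hw : w ∈ T₁.white (fun g => ι (t₁ g)) (ι (v false 0)) (ι (v true 0)) (ι M₀) (ι M₁)) :
      Relator n a T₁ T₂ T₃ T₄ w
  /-- the relators of the tangle `T₂` -/
  | tangle₂ {w : FreeGroup (Gen n T₁ T₂ T₃ T₄)}
      (hw : w ∈ T₂.white (fun g => ι (t₂ g)) (ι (v false (Fin.last n)))
        (ι (v true (Fin.last n))) (ι M₁) (ι M₂)) : Relator n a T₁ T₂ T₃ T₄ w
  /-- the relators of the tangle `T₃` -/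
  | tangle₃ {w : FreeGroup (Gen n T₁ T₂ T₃ T₄)}
      (hw : w ∈ T₃.black (fun g => ι (t₃ g)) (ι (F false 0)) (ι (F true 0)) (ι A₀) (ι A₁)) :
      Relator n a T₁ T₂ T₃ T₄ w
  /-- the relators of the tangle `T₄` -/
  | tangle₄ {w : FreeGroup (Gen n T₁ T₂ T₃ T₄)}
      (hw : w ∈ T₄.black (fun g => ι (t₄ g)) (ι (F false (Fin.last (n + 1))))
        (ι (F true (Fin.last (n + 1)))) (ι A₁) (ι A₂)) : Relator n a T₁ T₂ T₃ T₄ w
  /-- the boundary torus over the sphere around `T₄` (a consequence of the other relators) -/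
  | torus₄ : Relator n a T₁ T₂ T₃ T₄
      (((ι A₁)⁻¹ * ι A₂) * ((ι (F false (Fin.last (n + 1))))⁻¹ * ι (F true (Fin.last (n + 1)))) *
        (((ι (F false (Fin.last (n + 1))))⁻¹ * ι (F true (Fin.last (n + 1)))) *
          ((ι A₁)⁻¹ * ι A₂))⁻¹)

/-- The fundamental group of the double branched cover. -/
abbrev Grp (n : ℕ) (a : ℕ → ℕ) (T₁ T₂ T₃ T₄ : Slot) : Type :=
  PresentedGroup {w | Relator n a T₁ T₂ T₃ T₄ w}

/-- the multiplicities of all spokes -/
def mult (n : ℕ) (a : ℕ → ℕ) (i : ℕ) : ℕ :=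
  a i + (if i = 0 then 1 else 0) + (if i = n then 1 else 0)

theorem hom_trivial {n : ℕ} {a : ℕ → ℕ} {T₁ T₂ T₃ T₄ : Slot} (h₁ : T₁.Ok) (h₂ : T₂.Ok)
    (h₃ : T₃.Ok) (h₄ : T₄.Ok) (H : Type) [Group H] (hH : LeftOrderable H)
    (f : Grp n a T₁ T₂ T₃ T₄ →* H) (γ : Grp n a T₁ T₂ T₃ T₄) : f γ = 1 := by
  set π := PresentedGroup.mk {w | Relator n a T₁ T₂ T₃ T₄ w} with hπ
  have hrel : ∀ {w}, Relator n a T₁ T₂ T₃ T₄ w → π w = 1 := fun hw =>
    PresentedGroup.one_of_mem hw
  set I : Gen n T₁ T₂ T₃ T₄ → Grp n a T₁ T₂ T₃ T₄ := fun x => π (ι x) with hI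
  have eA₀ : I A₀ = 1 := hrel Relator.base_white
  have eM₀ : I M₀ = 1 := hrel Relator.base_black
  have efirst : ∀ c, (I M₀)⁻¹ * I (F c 0) * ((I A₀)⁻¹ * I (v c 0))⁻¹ = 1 := by
    intro c
    have := hrel (Relator.first (n := n) (a := a) (T₁ := T₁) (T₂ := T₂) (T₃ := T₃) (T₄ := T₄) c)
    simp only [map_mul, map_inv, map_pow, map_zpow] at this
    exact this
  have espokes : ∀ c (i : Fin (n + 1)),
      (I (F c i.castSucc))⁻¹ * I (F c i.succ) * (((I A₁)⁻¹ * I (v c i)) ^ a i)⁻¹ = 1 := by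
    intro c i
    have := hrel (Relator.spokes (n := n) (a := a) (T₁ := T₁) (T₂ := T₂) (T₃ := T₃)
      (T₄ := T₄) c i)
    simp only [map_mul, map_inv, map_pow, map_zpow] at this
    exact this
  have erim : ∀ c (i : Fin n), (I M₁)⁻¹ * I (F c i.succ.castSucc) *
      ((I (v c i.castSucc))⁻¹ * I (v c i.succ))⁻¹ = 1 := by
    intro c i
    have := hrel (Relator.rim (n := n) (a := a) (T₁ := T₁) (T₂ := T₂) (T₃ := T₃)
      (T₄ := T₄) c i)
    simp only [map_mul, map_inv, map_pow, map_zpow] at this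
    exact this
  have elast : ∀ c, (I (F c (Fin.last (n + 1))))⁻¹ * I M₂ *
      ((I A₂)⁻¹ * I (v c (Fin.last n)))⁻¹ = 1 := by
    intro c
    have := hrel (Relator.last (n := n) (a := a) (T₁ := T₁) (T₂ := T₂) (T₃ := T₃)
      (T₄ := T₄) c)
    simp only [map_mul, map_inv, map_pow, map_zpow] at this
    exact this
  have etorus : ((I A₁)⁻¹ * I A₂) *
      ((I (F false (Fin.last (n + 1))))⁻¹ * I (F true (Fin.last (n + 1)))) *
        (((I (F false (Fin.last (n + 1))))⁻¹ * I (F true (Fin.last (n + 1)))) *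
          ((I A₁)⁻¹ * I A₂))⁻¹ = 1 := by
    have := hrel (Relator.torus₄ (n := n) (a := a) (T₁ := T₁) (T₂ := T₂) (T₃ := T₃)
      (T₄ := T₄))
    simp only [map_mul, map_inv, map_pow, map_zpow] at this
    exact this
  simp only [eA₀, eM₀, inv_one, one_mul, mul_inv_eq_one] at efirst espokes erim elast etorus
  set b := mult n a with hb
  set N₀ : Grp n a T₁ T₂ T₃ T₄ := (I M₁)⁻¹ * I A₁ with hN₀
  set C : Bool → ℕ → Grp n a T₁ T₂ T₃ T₄ × Grp n a T₁ T₂ T₃ T₄ :=
    fun c => chain b N₀ ((I A₁)⁻¹ * I (v c 0)) with hC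
  have C_succ : ∀ c i, C c (i + 1) = ((C c i).1 * (C c i).2 ^ b i,
      (C c i).2 * ((C c i).1 * (C c i).2 ^ b i)) := fun c i => rfl
  have C0 : ∀ c, (C c 0).2 = (I A₁)⁻¹ * I (v c 0) := fun c => rfl
  have key : ∀ c i (hi : i < n + 1), (C c i).2 = (I A₁)⁻¹ * I (v c ⟨i, hi⟩) ∧
      (C c i).1 * (C c i).2 ^ (a i + if i = 0 then 1 else 0) =
        (I M₁)⁻¹ * I (F c ⟨i + 1, by omega⟩) := by
    intro c i
    induction i with
    | zero =>
      intro hi
      refine ⟨rfl, ?_⟩
      have h3 : (C c 0).1 = (I M₁)⁻¹ * I A₁ := rfl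
      rw [C0, h3, if_pos rfl, pow_succ']
      have h4 : I (F c ⟨0 + 1, by omega⟩) = I (F c (Fin.castSucc 0)) *
          ((I A₁)⁻¹ * I (v c 0)) ^ a 0 := by
        have h5 : (I (F c (Fin.castSucc 0)))⁻¹ * I (F c (Fin.succ 0)) =
          ((I A₁)⁻¹ * I (v c 0)) ^ a 0 := espokes c 0
        rw [← h5, mul_inv_cancel_left]; rfl
      have h6 : I (F c (Fin.castSucc 0)) = I (v c 0) := efirst c
      rw [h4, h6]
      show (I M₁)⁻¹ * I A₁ * ((I A₁)⁻¹ * I (v c 0) * ((I A₁)⁻¹ * I (v c 0)) ^ a 0) =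
        (I M₁)⁻¹ * (I (v c 0) * ((I A₁)⁻¹ * I (v c 0)) ^ a 0)
      generalize ((I A₁)⁻¹ * I (v c 0)) ^ a 0 = w
      group
    | succ i ih =>
      intro hi
      obtain ⟨h1, h2⟩ := ih (by omega)
      have hbi : b i = a i + if i = 0 then 1 else 0 := by
        rw [hb, mult, if_neg (by omega : ¬ i = n), add_zero]
      have h3 : (C c (i + 1)).1 = (I M₁)⁻¹ * I (F c ⟨i + 1, by omega⟩) := by
        rw [C_succ, hbi]; exact h2
      have h4 : (C c (i + 1)).2 = (I A₁)⁻¹ * I (v c ⟨i + 1, hi⟩) := by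
        have h5 : (C c (i + 1)).2 = (C c i).2 * (C c (i + 1)).1 := rfl
        rw [h5, h3, h1]
        have h6 : (I M₁)⁻¹ * I (F c ⟨i + 1, by omega⟩) =
          (I (v c ⟨i, by omega⟩))⁻¹ * I (v c ⟨i + 1, hi⟩) := erim c ⟨i, by omega⟩
        rw [h6]
        group
      refine ⟨h4, ?_⟩
      rw [if_neg (Nat.succ_ne_zero i), add_zero, h3, h4, mul_assoc]
      have h7 : (I (F c ⟨i + 1, by omega⟩))⁻¹ * I (F c ⟨i + 1 + 1, by omega⟩) =
        ((I A₁)⁻¹ * I (v c ⟨i + 1, hi⟩)) ^ a (i + 1) := espokes c ⟨i + 1, hi⟩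
      rw [← h7, mul_inv_cancel_left]
  have hE : ∀ c, (C c n).2 = (I A₁)⁻¹ * I (v c (Fin.last n)) := fun c => (key c n (by omega)).1
  have hN : ∀ c, (C c (n + 1)).1 = (I M₁)⁻¹ * I (F c (Fin.last (n + 1))) * (C c n).2 := by
    intro c
    have h1 := (key c n (by omega)).2
    have hbn : b n = (a n + if n = 0 then 1 else 0) + 1 := by
      rw [hb, mult, if_pos rfl]
    have h2 : (C c (n + 1)).1 = (C c n).1 * (C c n).2 ^ b n := rfl
    rw [h2, hbn, pow_succ, ← mul_assoc, h1]
    rfl
  set q := I (F false (Fin.last (n + 1))) with hq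
  set q' := I (F true (Fin.last (n + 1))) with hq'
  set κ := (I A₁)⁻¹ * I A₂ with hκ
  have hM₂ : ∀ c, I M₂ = I (F c (Fin.last (n + 1))) * κ⁻¹ * (C c n).2 := by
    intro c
    have h1 := elast c
    rw [hE, hκ, mul_inv_rev, inv_inv, mul_assoc, mul_assoc, mul_inv_cancel_left, ← h1,
      mul_inv_cancel_left]
  have hy : (C false n).2 = q⁻¹ * q' * (C true n).2 := by
    have h1 := (hM₂ false).symm.trans (hM₂ true)
    have h2 : κ⁻¹ * (C false n).2 = q⁻¹ * q' * κ⁻¹ * (C true n).2 := by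
      rw [← hq, ← hq', mul_assoc] at h1
      rw [← mul_right_inj q, h1]
      group
    have h3 : q⁻¹ * q' * κ⁻¹ = κ⁻¹ * (q⁻¹ * q') := by
      have h4 : κ * (q⁻¹ * q') = q⁻¹ * q' * κ := etorus
      rw [eq_inv_mul_iff_mul_eq, ← mul_assoc, h4, mul_inv_cancel_right]
    rw [h3, mul_assoc, mul_right_inj] at h2
    exact h2
  have hR : Ends2 n b (fun i => (C false i).1) (fun i => (C false i).2)
      (fun i => (C true i).1) (fun i => (C true i).2) := by
    refine ⟨chain_isChain _ _ _, chain_isChain _ _ _, rfl, ?_⟩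
    show (C true (n + 1)).1 = (C false (n + 1)).1
    rw [hN, hN, hy, ← hq, ← hq']
    group
  have slot₁ : ∀ (X : Type) [CompleteLinearOrder X] (φ : Grp n a T₁ T₂ T₃ T₄ →* Aut X) (p : X),
      φ (I (v true 0)) p = φ (I (v false 0)) p → φ (I M₁) p = φ (I M₀) p ∧
        (φ (I (v false 0)) p = p → φ (I M₀) p = p → ∀ z, φ (I (t₁ z)) p = p) :=
    fun X _ φ p hp => Slot.white_fix h₁ (φ.comp π)
      (fun w hw => by rw [MonoidHom.comp_apply, hrel (Relator.tangle₁ hw), map_one]) hp
  have slot₂ : ∀ (X : Type) [CompleteLinearOrder X] (φ : Grp n a T₁ T₂ T₃ T₄ →* Aut X) (p : X),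
      φ (I (v true (Fin.last n))) p = φ (I (v false (Fin.last n))) p →
        φ (I M₂) p = φ (I M₁) p ∧
        (φ (I (v false (Fin.last n))) p = p → φ (I M₁) p = p → ∀ z, φ (I (t₂ z)) p = p) :=
    fun X _ φ p hp => Slot.white_fix h₂ (φ.comp π)
      (fun w hw => by rw [MonoidHom.comp_apply, hrel (Relator.tangle₂ hw), map_one]) hp
  have slot₃ : ∀ (X : Type) [CompleteLinearOrder X] (φ : Grp n a T₁ T₂ T₃ T₄ →* Aut X) (p : X),
      φ (I (F true 0)) p = φ (I (F false 0)) p → φ (I A₁) p = φ (I A₀) p ∧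
        (φ (I (F false 0)) p = p → φ (I A₀) p = p → ∀ z, φ (I (t₃ z)) p = p) :=
    fun X _ φ p hp => Slot.black_fix h₃ (φ.comp π)
      (fun w hw => by rw [MonoidHom.comp_apply, hrel (Relator.tangle₃ hw), map_one]) hp
  have slot₄ : ∀ (X : Type) [CompleteLinearOrder X] (φ : Grp n a T₁ T₂ T₃ T₄ →* Aut X) (p : X),
      φ q' p = φ q p → φ (I A₂) p = φ (I A₁) p ∧
        (φ q p = p → φ (I A₁) p = p → ∀ z, φ (I (t₄ z)) p = p) :=
    fun X _ φ p hp => Slot.black_fix h₄ (φ.comp π)
      (fun w hw => by rw [MonoidHom.comp_apply, hrel (Relator.tangle₄ hw), map_one]) hp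
  have agree : ∀ (X : Type) [CompleteLinearOrder X] (φ : Grp n a T₁ T₂ T₃ T₄ →* Aut X)
      (g g' : Grp n a T₁ T₂ T₃ T₄) (p : X), φ ((I A₁)⁻¹ * g') p = φ ((I A₁)⁻¹ * g) p →
      φ g' p = φ g p := by
    intro X _ φ g g' p hp
    rw [map_mul, map_mul, Aut.mul_apply, Aut.mul_apply, Aut.inj] at hp
    exact hp
  have start : ∀ (X : Type) [CompleteLinearOrder X] (φ : Grp n a T₁ T₂ T₃ T₄ →* Aut X) (p : X),
      φ (C true 0).2 p = φ (C false 0).2 p → φ (I M₁) p = p ∧ φ (I A₁) p = p := by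
    intro X _ φ p hp
    rw [C0, C0] at hp
    have h1 := agree X φ _ _ p hp
    have h2 := (slot₁ X φ p h1).1
    have h3 : φ (I (F true 0)) p = φ (I (F false 0)) p := by rw [efirst, efirst]; exact h1
    have h4 := (slot₃ X φ p h3).1
    rw [eM₀, map_one, Aut.one_apply] at h2
    rw [eA₀, map_one, Aut.one_apply] at h4
    exact ⟨h2, h4⟩
  refine sym_triv (n := n) (b := b) ?_ hR ?_ ?_ ?_ H hH f γ
  · rw [hb, mult, if_pos rfl]; omega
  · intro X _ φ p hp
    obtain ⟨h1, h2⟩ := start X φ p hp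
    show φ ((I M₁)⁻¹ * I A₁) p = p
    rw [map_mul, map_inv, Aut.mul_apply, h2, inv_fix h1]
  · intro X _ φ p hp
    have hp' : φ (C true n).2 p = φ (C false n).2 p := hp
    have h1 : φ (I (v true (Fin.last n))) p = φ (I (v false (Fin.last n))) p := by
      rw [hE, hE] at hp'
      exact agree X φ _ _ p hp'
    have h2 := (slot₂ X φ p h1).1
    set z := φ (C false n).2 p with hz
    have h3 : φ q' z = φ q z := by
      have h4 : φ (C false n).2 p = φ (q⁻¹ * q') (φ (C true n).2 p) := by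
        rw [← Aut.mul_apply, ← map_mul, ← hy]
      rw [hp', ← hz] at h4
      have h5 : φ q (φ (q⁻¹ * q') z) = φ q' z := by
        rw [← Aut.mul_apply, ← map_mul, mul_inv_cancel_left]
      rw [← h5, ← h4]
    have h4 := (slot₄ X φ z h3).1
    have h5 : φ κ⁻¹ z = z := by
      have h6 : φ κ z = z := by
        rw [hκ, map_mul, Aut.mul_apply, h4, ← Aut.mul_apply, ← map_mul, inv_mul_cancel, map_one,
          Aut.one_apply]
      rw [map_inv]; exact inv_fix h6
    show φ (C false (n + 1)).1 p = p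
    rw [hN, ← hq]
    have h6 : φ ((I M₁)⁻¹ * I M₂) p = p := by
      rw [map_mul, Aut.mul_apply, h2, ← Aut.mul_apply, ← map_mul, inv_mul_cancel, map_one,
        Aut.one_apply]
    have h7 : φ ((I M₁)⁻¹ * q * (C false n).2) p = φ ((I M₁)⁻¹ * q) z := by
      rw [map_mul, Aut.mul_apply, ← hz]
    have h8 : φ ((I M₁)⁻¹ * I M₂) p = φ ((I M₁)⁻¹ * q) z := by
      have h9 : (I M₁)⁻¹ * I M₂ = (I M₁)⁻¹ * q * κ⁻¹ * (C false n).2 := by
        rw [hM₂ false, ← hq]; group
      rw [h9, map_mul, Aut.mul_apply, ← hz, map_mul, Aut.mul_apply, h5]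
    rw [h7, ← h8, h6]
  · intro X _ φ p hp hp' γ
    have e1 : φ (C false 0).2 p = p := hp
    have e2 : φ (C true 0).2 p = p := hp'
    obtain ⟨k1, k2⟩ := start X φ p (e2.trans e1.symm)
    have kN : φ N₀ p = p := by
      rw [hN₀, map_mul, map_inv, Aut.mul_apply, k2, inv_fix k1]
    set K : Subgroup (Grp n a T₁ T₂ T₃ T₄) :=
      { carrier := {g | φ g p = p}
        one_mem' := by show φ 1 p = p; rw [map_one, Aut.one_apply]
        mul_mem' := by
          intro g g' h5 h6
          show φ (g * g') p = p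
          rw [map_mul, Aut.mul_apply, (show φ g' p = p from h6), (show φ g p = p from h5)]
        inv_mem' := by
          intro g h5
          show φ g⁻¹ p = p
          rw [map_inv]; exact inv_fix h5 } with hK
    have kM₁ : I M₁ ∈ K := k1
    have kA₁ : I A₁ ∈ K := k2
    have kc : ∀ c, (C c 0).2 ∈ K := by rintro (_ | _) <;> assumption
    have kC : ∀ c i, (C c i).1 ∈ K ∧ (C c i).2 ∈ K := fun c i =>
      chain_mem b (show N₀ ∈ K from kN) (kc c) i
    have kv : ∀ c (i : Fin (n + 1)), I (v c i) ∈ K := by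
      intro c i
      have h1 := (key c i i.2).1
      have h2 : I (v c i) = I A₁ * (C c i).2 := by rw [h1, mul_inv_cancel_left]
      rw [h2]; exact mul_mem kA₁ (kC c i).2
    have kF : ∀ c (i : Fin (n + 2)), I (F c i) ∈ K := by
      intro c i
      refine Fin.cases ?_ (fun i => ?_) i
      · rw [efirst]; exact kv c 0
      · have h1 := (key c i i.2).2
        have h2 : I (F c i.succ) = I M₁ * ((C c i).1 * (C c i).2 ^
          (a i + if (i : ℕ) = 0 then 1 else 0)) := by
          rw [h1, mul_inv_cancel_left]; rfl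
        rw [h2]
        exact mul_mem kM₁ (mul_mem (kC c i).1 (pow_mem (kC c i).2 _))
    have s₁ := slot₁ X φ p ((kv true 0 : φ _ p = p).trans (kv false 0 : φ _ p = p).symm)
    have s₂ := slot₂ X φ p ((kv true (Fin.last n) : φ _ p = p).trans
      (kv false (Fin.last n) : φ _ p = p).symm)
    have s₃ := slot₃ X φ p ((kF true 0 : φ _ p = p).trans (kF false 0 : φ _ p = p).symm)
    have s₄ := slot₄ X φ p ((kF true (Fin.last (n + 1)) : φ _ p = p).trans
      (kF false (Fin.last (n + 1)) : φ _ p = p).symm)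
    have kall : ∀ x, I x ∈ K := by
      intro x
      cases x with
      | A₀ => rw [eA₀]; exact one_mem K
      | A₁ => exact kA₁
      | A₂ => exact s₄.1.trans k2
      | M₀ => rw [eM₀]; exact one_mem K
      | M₁ => exact kM₁
      | M₂ => exact s₂.1.trans k1
      | v c i => exact kv c i
      | F c i => exact kF c i
      | t₁ g => exact s₁.2 (kv false 0) (by rw [eM₀, map_one, Aut.one_apply]) g
      | t₂ g => exact s₂.2 (kv false (Fin.last n)) k1 g
      | t₃ g => exact s₃.2 (kF false 0) (by rw [eA₀, map_one, Aut.one_apply]) g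
      | t₄ g => exact s₄.2 (kF false (Fin.last (n + 1))) k2 g
    have htop : (⊤ : Subgroup (Grp n a T₁ T₂ T₃ T₄)) ≤ K := by
      rw [← PresentedGroup.closure_range_of, Subgroup.closure_le]
      rintro _ ⟨x, rfl⟩
      exact kall x
    exact htop (Subgroup.mem_top γ)

/-- **Symmetric unions of two-bridge links, with rational or alternating tangles on the axis.**
Every homomorphism from the fundamental group of the double branched cover to a left-orderable
group is trivial; in particular the group is not left-orderable. -/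
theorem result (n : ℕ) (a : ℕ → ℕ) (T₁ T₂ T₃ T₄ : Slot) (h₁ : T₁.Ok) (h₂ : T₂.Ok) (h₃ : T₃.Ok)
    (h₄ : T₄.Ok) :
    (∀ (H : Type) [Group H], LeftOrderable H →
      ∀ (f : Grp n a T₁ T₂ T₃ T₄ →* H) (γ : Grp n a T₁ T₂ T₃ T₄), f γ = 1) ∧
    ¬ LeftOrderable (Grp n a T₁ T₂ T₃ T₄) := by
  have key : ∀ (H : Type) [Group H], LeftOrderable H →
      ∀ (f : Grp n a T₁ T₂ T₃ T₄ →* H) (γ : Grp n a T₁ T₂ T₃ T₄), f γ = 1 :=
    fun H _ hH f γ => hom_trivial h₁ h₂ h₃ h₄ H hH f γ
  refine ⟨key, fun hG => ?_⟩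
  obtain ⟨x, y, hxy⟩ := hG.1
  have h1 := key _ hG (MonoidHom.id _) x
  have h2 := key _ hG (MonoidHom.id _) y
  simp only [MonoidHom.id_apply] at h1 h2
  exact hxy (by rw [h1, h2])

end Pool.Agent.Results.MP_9ae2f3_gt.TwoBridgeSymmetricUnions
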